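import Pool.Agent.Helper92.TG.GoalsX

set_option autoImplicit false

namespace Pool.Agent.Helper51.TG.ZER

open WeierstrassCurve Polynomial
open Pool.Agent.Helper92.TG
open Pool.Agent.Helper29.BL Pool.Agent.Helper42.SG
open Pool.Agent.Helper60.T3 (WL zd IP)
open Pool.Agent.Helper42.TG (Endo)

theorem t (h : EXTS) : ZER := by
  intro K _ _ W hW ρ hρ F _ _ _ P
  obtain ⟨Ω, hΩ, hd, hA, j, V, Q, h1, h2, h3, h4⟩ := h K W hW F
  have e1 : ρ.f Ω (mp j P + Q) = 0 := hρ Ω _ (h4 P)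
  have e2 : ρ.f Ω Q = 0 := hρ Ω _ h3
  have e3 : ρ.f Ω (mp j P) = 0 := by
    rw [map_add, e2, add_zero] at e1
    exact e1
  have e4 : mp j (ρ.f F P) = 0 := (ρ.nat F Ω j P).symm.trans e3
  have e5 : mp j (0 : (WL F W).Point) = 0 := map_zero _
  exact Affine.Point.map_injective (W' := W) j (e4.trans e5.symm)

end Pool.Agent.Helper51.TG.ZER
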